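import Pool.Agent.H633.CY.Stm

/-! TUR: Turan's inequality for a set of primes. -/

set_option autoImplicit false

namespace Pool.Agent.H52.CY633

open Finset Pool.Agent.H633.CY

theorem sum_dvd (N d : ℕ) : ∑ n ∈ Icc 1 N, (if d ∣ n then (1 : ℝ) else 0) = ((N / d : ℕ) : ℝ) := by
  rw [Finset.sum_boole]
  have h : Icc 1 N = Ioc 0 N := by
    ext x; simp only [mem_Icc, mem_Ioc]; omega
  rw [h, Nat.Ioc_filter_dvd_card_eq_div]

theorem t_tur : S_TUR := by
  intro N P hP hcard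
  classical
  set E : ℝ := ∑ p ∈ P, (1 : ℝ) / p with hE
  have hE0 : 0 ≤ E := Finset.sum_nonneg fun p _ => by positivity
  rcases hE0.eq_or_lt with h0 | hpos
  · rw [← h0, mul_zero]; positivity
  let ω : ℕ → ℝ := fun n => ∑ p ∈ P, if p ∣ n then (1 : ℝ) else 0
  have hω : ∀ n, (((P.filter (fun p => p ∣ n)).card : ℕ) : ℝ) = ω n := by
    intro n
    show _ = ∑ p ∈ P, if p ∣ n then (1 : ℝ) else 0
    rw [Finset.sum_boole]
  -- first moment
  have h1 : (N : ℝ) * E - P.card ≤ ∑ n ∈ Icc 1 N, ω n := by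
    have e1 : ∑ n ∈ Icc 1 N, ω n = ∑ p ∈ P, ((N / p : ℕ) : ℝ) := by
      show ∑ n ∈ Icc 1 N, ∑ p ∈ P, (if p ∣ n then (1 : ℝ) else 0) = _
      rw [Finset.sum_comm]
      exact Finset.sum_congr rfl fun p _ => sum_dvd N p
    have e2 : (N : ℝ) * E - P.card = ∑ p ∈ P, ((N : ℝ) / p - 1) := by
      rw [Finset.sum_sub_distrib, hE, Finset.mul_sum]
      congr 1
      · exact Finset.sum_congr rfl fun p _ => by ring
      · simp
    rw [e1, e2]
    refine Finset.sum_le_sum fun p hp => ?_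
    have hp0 : 0 < p := (hP p hp).pos
    have h2 : N < p * (N / p + 1) := by
      have := Nat.lt_mul_div_succ N hp0
      exact this
    have h3 : (N : ℝ) < p * (((N / p : ℕ) : ℝ) + 1) := by exact_mod_cast h2
    have hp1 : (0 : ℝ) < p := by exact_mod_cast hp0
    have h4 : (N : ℝ) / p < ((N / p : ℕ) : ℝ) + 1 := by
      rw [div_lt_iff₀ hp1]; linarith
    linarith
  -- second moment
  have h2 : ∑ n ∈ Icc 1 N, ω n ^ 2 ≤ N * E + N * E ^ 2 := by
    have e1 : ∑ n ∈ Icc 1 N, ω n ^ 2 = ∑ p ∈ P, ∑ p' ∈ P, ∑ n ∈ Icc 1 N,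
        (if p ∣ n then (1 : ℝ) else 0) * (if p' ∣ n then (1 : ℝ) else 0) := by
      have : ∀ n ∈ Icc 1 N, ω n ^ 2 = ∑ p ∈ P, ∑ p' ∈ P,
          (if p ∣ n then (1 : ℝ) else 0) * (if p' ∣ n then (1 : ℝ) else 0) := by
        intro n _
        show (∑ p ∈ P, if p ∣ n then (1 : ℝ) else 0) ^ 2 = _
        rw [sq, Finset.sum_mul_sum]
      rw [Finset.sum_congr rfl this, Finset.sum_comm]
      refine Finset.sum_congr rfl fun p _ => ?_
      rw [Finset.sum_comm]
    have e2 : (N : ℝ) * E + N * E ^ 2 = ∑ p ∈ P, ∑ p' ∈ P,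
        ((if p = p' then (N : ℝ) / p else 0) + N * (1 / p * (1 / p'))) := by
      have : ∀ p ∈ P, ∑ p' ∈ P, ((if p = p' then (N : ℝ) / p else 0) + N * (1 / p * (1 / p'))) =
          N / p + N * (1 / p * E) := by
        intro p hp
        rw [Finset.sum_add_distrib, Finset.sum_ite_eq, if_pos hp, ← Finset.mul_sum, ← Finset.mul_sum]
      rw [Finset.sum_congr rfl this, Finset.sum_add_distrib, ← Finset.mul_sum, ← Finset.sum_mul, ← hE,
        sq]
      congr 1
      rw [hE, Finset.mul_sum]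
      exact Finset.sum_congr rfl fun p _ => by ring
    rw [e1, e2]
    refine Finset.sum_le_sum fun p hp => Finset.sum_le_sum fun p' hp' => ?_
    have hp0 : (0 : ℝ) < p := by exact_mod_cast (hP p hp).pos
    have hp0' : (0 : ℝ) < p' := by exact_mod_cast (hP p' hp').pos
    by_cases hpp : p = p'
    · rw [if_pos hpp]
      have e3 : ∑ n ∈ Icc 1 N, (if p ∣ n then (1 : ℝ) else 0) * (if p' ∣ n then (1 : ℝ) else 0) =
          ((N / p : ℕ) : ℝ) := by
        rw [← sum_dvd]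
        refine Finset.sum_congr rfl fun n _ => ?_
        rw [← hpp]
        split_ifs <;> norm_num
      rw [e3]
      have e4 : ((N / p : ℕ) : ℝ) ≤ (N : ℝ) / p := Nat.cast_div_le
      have e5 : 0 ≤ (N : ℝ) * (1 / p * (1 / p')) := by positivity
      linarith
    · rw [if_neg hpp, zero_add]
      have hcop : p.Coprime p' := (Nat.coprime_primes (hP p hp) (hP p' hp')).2 hpp
      have e3 : ∑ n ∈ Icc 1 N, (if p ∣ n then (1 : ℝ) else 0) * (if p' ∣ n then (1 : ℝ) else 0) =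
          ((N / (p * p') : ℕ) : ℝ) := by
        rw [← sum_dvd]
        refine Finset.sum_congr rfl fun n _ => ?_
        by_cases h : p ∣ n
        · by_cases h' : p' ∣ n
          · rw [if_pos h, if_pos h', if_pos (hcop.mul_dvd_of_dvd_of_dvd h h'), one_mul]
          · rw [if_neg h', mul_zero, if_neg (fun h'' => h' ((dvd_mul_left p' p).trans h''))]
        · rw [if_neg h, zero_mul, if_neg (fun h'' => h ((dvd_mul_right p p').trans h''))]
      rw [e3]
      have e4 : ((N / (p * p') : ℕ) : ℝ) ≤ (N : ℝ) / ((p * p' : ℕ) : ℝ) := Nat.cast_div_le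
      refine e4.trans (le_of_eq ?_)
      push_cast
      field_simp
  -- variance
  have h3 : ∑ n ∈ Icc 1 N, (ω n - E) ^ 2 ≤ 3 * N * E := by
    have e1 : ∑ n ∈ Icc 1 N, (ω n - E) ^ 2 =
        ∑ n ∈ Icc 1 N, ω n ^ 2 - 2 * E * ∑ n ∈ Icc 1 N, ω n + N * E ^ 2 := by
      have : ∀ n ∈ Icc 1 N, (ω n - E) ^ 2 = ω n ^ 2 - 2 * E * ω n + E ^ 2 := by
        intro n _; ring
      rw [Finset.sum_congr rfl this, Finset.sum_add_distrib, Finset.sum_sub_distrib, ← Finset.mul_sum]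
      simp
    have hc : (P.card : ℝ) ≤ N := by exact_mod_cast hcard
    rw [e1]
    have e2 : 2 * E * ((N : ℝ) * E - P.card) ≤ 2 * E * ∑ n ∈ Icc 1 N, ω n :=
      mul_le_mul_of_nonneg_left h1 (by positivity)
    have e3 : 2 * E * (P.card : ℝ) ≤ 2 * E * N := mul_le_mul_of_nonneg_left hc (by positivity)
    nlinarith
  -- Chebyshev
  set A := (Icc 1 N).filter (fun n => (((P.filter (fun p => p ∣ n)).card : ℕ) : ℝ) < E / 2) with hA
  have h4 : (A.card : ℝ) * (E ^ 2 / 4) ≤ ∑ n ∈ Icc 1 N, (ω n - E) ^ 2 := by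
    have e1 : (A.card : ℝ) * (E ^ 2 / 4) = ∑ n ∈ A, E ^ 2 / 4 := by
      rw [Finset.sum_const, nsmul_eq_mul]
    rw [e1]
    refine (Finset.sum_le_sum (fun n hn => ?_)).trans
      (Finset.sum_le_sum_of_subset_of_nonneg (Finset.filter_subset _ _) (fun n _ _ => sq_nonneg (ω n - E)))
    rw [hA, Finset.mem_filter, hω] at hn
    nlinarith [hn.2]
  have h5 : (A.card : ℝ) * (E ^ 2 / 4) ≤ 3 * N * E := h4.trans h3
  have h6 : ((A.card : ℝ) * E) * E ≤ (12 * N) * E := by nlinarith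
  exact le_of_mul_le_mul_right h6 hpos

end Pool.Agent.H52.CY633
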